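import Mathlib

/-!
# A non-canonical mean-width-preserving planar symmetrization

For a planar convex body `K` let `K₀ = conv (K ∪ {0})` and let `M K₀ = (K₀ + (-K₀)) / 2`.
The map `K ↦ (V₁ K / V₁ K₀) • M K₀` is monotonic, invariant on origin-symmetric bodies,
preserves the first intrinsic volume, and maps every segment that is not contained in a line
through the origin to a body which is not a segment.
-/

namespace Pool.Agent.Results.MP_84aa88_gt.NonCanonical

open MeasureTheory Set
open scoped Pointwise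

/-- The Euclidean plane. -/
abbrev Plane : Type := EuclideanSpace ℝ (Fin 2)

/-- The unit vector `(cos θ, sin θ)`. -/
noncomputable def unitVec (θ : ℝ) : Plane := !₂[Real.cos θ, Real.sin θ]

/-- The support function `h_K(u) = sup_{x ∈ K} ⟪x, u⟫`. -/
noncomputable def supp (K : ConvexBody Plane) (u : Plane) : ℝ :=
  sSup ((fun x : Plane => inner ℝ x u) '' (K : Set Plane))

/-- The first intrinsic volume of a planar convex body, by Cauchy's formula: half of the
perimeter `∫_0^{2π} h_K(cos θ, sin θ) dθ`. -/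
noncomputable def V1 (K : ConvexBody Plane) : ℝ :=
  (1 / 2) * ∫ θ in (0 : ℝ)..(2 * Real.pi), supp K (unitVec θ)

/-- Origin-symmetric: `K = -K`. -/
def OSymm (K : ConvexBody Plane) : Prop := -(K : Set Plane) = (K : Set Plane)

/-- The segment with endpoints `p`, `q` as a convex body. -/
noncomputable def seg (p q : Plane) : ConvexBody Plane where
  carrier := segment ℝ p q
  convex' := convex_segment p q
  isCompact' := by
    rw [← convexHull_pair]
    exact (Set.toFinite {p, q}).isCompact_convexHull ℝ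
  nonempty' := ⟨p, left_mem_segment ℝ p q⟩

/-! ### Support functions -/

lemma bddAbove_supp (K : ConvexBody Plane) (u : Plane) :
    BddAbove ((fun x : Plane => inner ℝ x u) '' (K : Set Plane)) :=
  (K.isCompact.image (by fun_prop)).bddAbove

lemma le_supp {K : ConvexBody Plane} {x : Plane} (hx : x ∈ K) (u : Plane) :
    inner ℝ x u ≤ supp K u :=
  le_csSup (bddAbove_supp K u) ⟨x, hx, rfl⟩

lemma supp_le {K : ConvexBody Plane} {u : Plane} {c : ℝ}
    (h : ∀ x ∈ K, inner ℝ x u ≤ c) : supp K u ≤ c := by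
  apply csSup_le (K.nonempty.image _)
  rintro _ ⟨x, hx, rfl⟩
  exact h x hx

lemma exists_supp (K : ConvexBody Plane) (u : Plane) :
    ∃ x ∈ K, inner ℝ x u = supp K u := by
  obtain ⟨x, hx, h⟩ := K.isCompact.exists_sSup_image_eq K.nonempty
    (f := fun x : Plane => inner ℝ x u) (by fun_prop)
  exact ⟨x, hx, h.symm⟩

lemma supp_mono {K L : ConvexBody Plane} (h : K ≤ L) (u : Plane) : supp K u ≤ supp L u :=
  supp_le fun _ hx => le_supp (h hx) u

lemma supp_add (K L : ConvexBody Plane) (u : Plane) : supp (K + L) u = supp K u + supp L u := by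
  apply le_antisymm
  · apply supp_le
    intro x hx
    obtain ⟨a, ha, b, hb, rfl⟩ := Set.mem_add.mp (show x ∈ (K : Set Plane) + L from hx)
    rw [inner_add_left]
    exact add_le_add (le_supp ha u) (le_supp hb u)
  · obtain ⟨a, ha, ha'⟩ := exists_supp K u
    obtain ⟨b, hb, hb'⟩ := exists_supp L u
    rw [← ha', ← hb', ← inner_add_left]
    exact le_supp (show a + b ∈ (K : Set Plane) + L from Set.add_mem_add ha hb) u

lemma supp_smul (c : ℝ) (hc : 0 ≤ c) (K : ConvexBody Plane) (u : Plane) :
    supp (c • K) u = c * supp K u := by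
  apply le_antisymm
  · apply supp_le
    intro x hx
    obtain ⟨a, ha, rfl⟩ := Set.mem_smul_set.mp (show x ∈ c • (K : Set Plane) from hx)
    rw [real_inner_smul_left]
    exact mul_le_mul_of_nonneg_left (le_supp ha u) hc
  · obtain ⟨a, ha, ha'⟩ := exists_supp K u
    rw [← ha', ← real_inner_smul_left]
    exact le_supp (show c • a ∈ c • (K : Set Plane) from Set.smul_mem_smul_set ha) u

lemma supp_neg (K : ConvexBody Plane) (u : Plane) :
    supp ((-1 : ℝ) • K) u = supp K (-u) := by
  apply le_antisymm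
  · apply supp_le
    intro x hx
    obtain ⟨a, ha, rfl⟩ := Set.mem_smul_set.mp (show x ∈ (-1 : ℝ) • (K : Set Plane) from hx)
    have : inner ℝ ((-1 : ℝ) • a) u = inner ℝ a (-u) := by
      rw [real_inner_smul_left, inner_neg_right]; ring
    rw [this]
    exact le_supp ha _
  · apply supp_le
    intro a ha
    have : inner ℝ a (-u) = inner ℝ ((-1 : ℝ) • a) u := by
      rw [real_inner_smul_left, inner_neg_right]; ring
    rw [this]
    exact le_supp (show (-1 : ℝ) • a ∈ (-1 : ℝ) • (K : Set Plane) from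
      Set.smul_mem_smul_set ha) u

lemma continuous_supp (K : ConvexBody Plane) : Continuous (supp K) := by
  unfold supp
  apply IsCompact.continuous_sSup K.isCompact
  fun_prop

lemma continuous_unitVec : Continuous unitVec := by
  unfold unitVec
  fun_prop

lemma continuous_h (K : ConvexBody Plane) : Continuous fun θ => supp K (unitVec θ) :=
  (continuous_supp K).comp continuous_unitVec

lemma unitVec_add_pi (θ : ℝ) : unitVec (θ + Real.pi) = -unitVec θ := by
  unfold unitVec
  ext i
  fin_cases i <;> simp [Real.cos_add_pi, Real.sin_add_pi]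

lemma unitVec_periodic : Function.Periodic unitVec (2 * Real.pi) := by
  intro θ
  unfold unitVec
  rw [Real.cos_add_two_pi, Real.sin_add_two_pi]

/-! ### The first intrinsic volume -/

lemma integral_neg_dir (K : ConvexBody Plane) :
    ∫ θ in (0 : ℝ)..(2 * Real.pi), supp K (-unitVec θ) =
      ∫ θ in (0 : ℝ)..(2 * Real.pi), supp K (unitVec θ) := by
  have h1 : ∀ θ, supp K (-unitVec θ) = (fun φ => supp K (unitVec φ)) (θ + Real.pi) := by
    intro θ
    simp only [unitVec_add_pi]
  simp_rw [h1]
  rw [intervalIntegral.integral_comp_add_right (fun φ => supp K (unitVec φ)) Real.pi]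
  have hper : Function.Periodic (fun φ => supp K (unitVec φ)) (2 * Real.pi) := by
    intro φ
    simp only
    rw [unitVec_periodic]
  have := hper.intervalIntegral_add_eq (0 + Real.pi) 0
  rw [zero_add] at this
  rw [show (2 * Real.pi + Real.pi) = Real.pi + 2 * Real.pi by ring, zero_add, this, zero_add]

lemma V1_add (K L : ConvexBody Plane) : V1 (K + L) = V1 K + V1 L := by
  unfold V1
  simp_rw [supp_add]
  rw [intervalIntegral.integral_add ((continuous_h K).intervalIntegrable _ _)
    ((continuous_h L).intervalIntegrable _ _)]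
  ring

lemma V1_smul (c : ℝ) (hc : 0 ≤ c) (K : ConvexBody Plane) : V1 (c • K) = c * V1 K := by
  unfold V1
  simp_rw [supp_smul c hc]
  rw [intervalIntegral.integral_const_mul]
  ring

lemma V1_neg (K : ConvexBody Plane) : V1 ((-1 : ℝ) • K) = V1 K := by
  unfold V1
  simp_rw [supp_neg]
  rw [integral_neg_dir]

lemma V1_mono {K L : ConvexBody Plane} (h : K ≤ L) : V1 K ≤ V1 L := by
  unfold V1
  have : ∫ θ in (0 : ℝ)..(2 * Real.pi), supp K (unitVec θ) ≤
      ∫ θ in (0 : ℝ)..(2 * Real.pi), supp L (unitVec θ) := by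
    apply intervalIntegral.integral_mono (by positivity)
      ((continuous_h K).intervalIntegrable _ _) ((continuous_h L).intervalIntegrable _ _)
    intro θ
    exact supp_mono h _
  linarith

/-- The width in direction `u` is nonnegative. -/
lemma width_nonneg (K : ConvexBody Plane) (u : Plane) : 0 ≤ supp K u + supp K (-u) := by
  obtain ⟨x, hx⟩ := K.nonempty
  have h1 := le_supp hx u
  have h2 := le_supp hx (-u)
  rw [inner_neg_right] at h2
  linarith

lemma V1_eq_width (K : ConvexBody Plane) :
    V1 K = (1 / 4) * ∫ θ in (0 : ℝ)..(2 * Real.pi),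
      (supp K (unitVec θ) + supp K (-unitVec θ)) := by
  have hc : Continuous fun θ => supp K (-unitVec θ) :=
    (continuous_supp K).comp continuous_unitVec.neg
  rw [intervalIntegral.integral_add ((continuous_h K).intervalIntegrable _ _)
    (hc.intervalIntegrable _ _), integral_neg_dir]
  unfold V1
  ring

lemma V1_nonneg (K : ConvexBody Plane) : 0 ≤ V1 K := by
  rw [V1_eq_width]
  have : 0 ≤ ∫ θ in (0 : ℝ)..(2 * Real.pi), (supp K (unitVec θ) + supp K (-unitVec θ)) := by
    apply intervalIntegral.integral_nonneg (by positivity)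
    intro θ _
    exact width_nonneg K _
  linarith

lemma V1_pos_of_width {K : ConvexBody Plane} {c : ℝ} (hc : c ∈ Icc (0 : ℝ) (2 * Real.pi))
    (h : 0 < supp K (unitVec c) + supp K (-unitVec c)) : 0 < V1 K := by
  rw [V1_eq_width]
  have hcont : Continuous fun θ => supp K (unitVec θ) + supp K (-unitVec θ) :=
    (continuous_h K).add ((continuous_supp K).comp continuous_unitVec.neg)
  have : 0 < ∫ θ in (0 : ℝ)..(2 * Real.pi), (supp K (unitVec θ) + supp K (-unitVec θ)) := by
    apply intervalIntegral.integral_pos (by positivity) hcont.continuousOn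
    · intro θ _
      exact width_nonneg K _
    · exact ⟨c, hc, h⟩
  linarith

/-- Two distinct points in `K` force `V1 K > 0`. -/
lemma V1_pos {K : ConvexBody Plane} {x y : Plane} (hx : x ∈ K) (hy : y ∈ K) (hxy : x ≠ y) :
    0 < V1 K := by
  have hpi := Real.pi_pos
  have key : ∀ c ∈ Icc (0 : ℝ) (2 * Real.pi), inner ℝ (x - y) (unitVec c) ≠ 0 → 0 < V1 K := by
    intro c hc hne
    apply V1_pos_of_width hc
    have h1 := le_supp hx (unitVec c)
    have h2 := le_supp hx (-unitVec c)
    have h3 := le_supp hy (unitVec c)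
    have h4 := le_supp hy (-unitVec c)
    rw [inner_neg_right] at h2 h4
    rw [inner_sub_left] at hne
    rcases lt_or_gt_of_ne hne with h | h <;> linarith
  by_contra hcon
  have k0 : inner ℝ (x - y) (unitVec 0) = 0 := by
    by_contra h
    exact hcon (key 0 ⟨le_rfl, by positivity⟩ h)
  have k1 : inner ℝ (x - y) (unitVec (Real.pi / 2)) = 0 := by
    by_contra h
    exact hcon (key (Real.pi / 2) ⟨by positivity, by linarith⟩ h)
  apply hxy
  have e0 : (x - y) 0 = 0 := by
    simpa [unitVec, PiLp.inner_apply, Fin.sum_univ_two] using k0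
  have e1 : (x - y) 1 = 0 := by
    simpa [unitVec, PiLp.inner_apply, Fin.sum_univ_two] using k1
  have : x - y = 0 := by
    ext i
    fin_cases i
    · exact e0
    · exact e1
  exact sub_eq_zero.mp this

/-! ### Sanity check: `V1` of a segment is its length -/

lemma integral_abs_cos : ∫ θ in (0 : ℝ)..(2 * Real.pi), |Real.cos θ| = 4 := by
  have hper : Function.Periodic (fun θ => |Real.cos θ|) Real.pi := by
    intro θ
    simp [Real.cos_add_pi]
  have hint : ∀ a b : ℝ, IntervalIntegrable (fun θ => |Real.cos θ|) volume a b := fun a b =>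
    (Real.continuous_cos.abs).intervalIntegrable a b
  have h1 : ∫ θ in (-(Real.pi / 2))..(Real.pi / 2), |Real.cos θ| = 2 := by
    have : ∫ θ in (-(Real.pi / 2))..(Real.pi / 2), |Real.cos θ| =
        ∫ θ in (-(Real.pi / 2))..(Real.pi / 2), Real.cos θ := by
      apply intervalIntegral.integral_congr
      intro θ hθ
      rw [Set.uIcc_of_le (by linarith [Real.pi_pos])] at hθ
      exact abs_of_nonneg (Real.cos_nonneg_of_mem_Icc hθ)
    rw [this, integral_cos, Real.sin_neg, Real.sin_pi_div_two]
    norm_num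
  have h2 : ∫ θ in (0 : ℝ)..Real.pi, |Real.cos θ| = 2 := by
    have := hper.intervalIntegral_add_eq (-(Real.pi / 2)) 0
    rw [zero_add, show -(Real.pi / 2) + Real.pi = Real.pi / 2 by ring, h1] at this
    exact this.symm
  have h3 : ∫ θ in Real.pi..(2 * Real.pi), |Real.cos θ| = 2 := by
    have := hper.intervalIntegral_add_eq Real.pi 0
    rw [zero_add, ← two_mul, h2] at this
    exact this
  rw [← intervalIntegral.integral_add_adjacent_intervals (hint 0 Real.pi) (hint _ _), h2, h3]
  norm_num

lemma exists_angle (w : Plane) : ∃ φ : ℝ, ∀ θ, inner ℝ w (unitVec θ) = ‖w‖ * Real.cos (θ - φ) := by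
  refine ⟨(⟨w 0, w 1⟩ : ℂ).arg, fun θ => ?_⟩
  have hn : ‖w‖ = ‖(⟨w 0, w 1⟩ : ℂ)‖ := by
    rw [EuclideanSpace.norm_eq, Complex.norm_eq_sqrt_sq_add_sq]
    simp [Fin.sum_univ_two]
  have hc := Complex.norm_mul_cos_arg (⟨w 0, w 1⟩ : ℂ)
  have hs := Complex.norm_mul_sin_arg (⟨w 0, w 1⟩ : ℂ)
  simp only at hc hs
  rw [Real.cos_sub, hn, mul_add]
  have : inner ℝ w (unitVec θ) = w 0 * Real.cos θ + w 1 * Real.sin θ := by
    simp [unitVec, PiLp.inner_apply, Fin.sum_univ_two, mul_comm]
  rw [this]
  calc w 0 * Real.cos θ + w 1 * Real.sin θ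
      = (‖(⟨w 0, w 1⟩ : ℂ)‖ * Real.cos (⟨w 0, w 1⟩ : ℂ).arg) * Real.cos θ
        + (‖(⟨w 0, w 1⟩ : ℂ)‖ * Real.sin (⟨w 0, w 1⟩ : ℂ).arg) * Real.sin θ := by rw [hc, hs]
    _ = _ := by ring

lemma supp_seg (p q u : Plane) : supp (seg p q) u = max (inner ℝ p u) (inner ℝ q u) := by
  apply le_antisymm
  · apply supp_le
    intro x hx
    obtain ⟨a, b, ha, hb, hab, rfl⟩ := (show x ∈ segment ℝ p q from hx)
    rw [inner_add_left, real_inner_smul_left, real_inner_smul_left]
    have h1 := le_max_left (inner ℝ p u) (inner ℝ q u)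
    have h2 := le_max_right (inner ℝ p u) (inner ℝ q u)
    calc a * inner ℝ p u + b * inner ℝ q u
        ≤ a * max (inner ℝ p u) (inner ℝ q u) + b * max (inner ℝ p u) (inner ℝ q u) :=
          add_le_add (mul_le_mul_of_nonneg_left h1 ha) (mul_le_mul_of_nonneg_left h2 hb)
      _ = max (inner ℝ p u) (inner ℝ q u) := by rw [← add_mul, hab, one_mul]
  · exact max_le (le_supp (left_mem_segment ℝ p q) u) (le_supp (right_mem_segment ℝ p q) u)

/-- The first intrinsic volume of a segment is its length. -/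
lemma V1_seg (p q : Plane) : V1 (seg p q) = dist p q := by
  rw [V1_eq_width]
  obtain ⟨φ, hφ⟩ := exists_angle (p - q)
  have h1 : ∀ θ, supp (seg p q) (unitVec θ) + supp (seg p q) (-unitVec θ) =
      ‖p - q‖ * |Real.cos (θ - φ)| := by
    intro θ
    have e : |inner ℝ (p - q) (unitVec θ)| = ‖p - q‖ * |Real.cos (θ - φ)| := by
      rw [hφ, abs_mul, abs_of_nonneg (norm_nonneg _)]
    rw [← e, supp_seg, supp_seg, inner_neg_right, inner_neg_right, inner_sub_left]
    rcases le_total (inner ℝ p (unitVec θ)) (inner ℝ q (unitVec θ)) with h | h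
    · rw [max_eq_right h, max_eq_left (by linarith), abs_of_nonpos (by linarith)]; ring
    · rw [max_eq_left h, max_eq_right (by linarith), abs_of_nonneg (by linarith)]; ring
  simp_rw [h1]
  rw [intervalIntegral.integral_const_mul]
  have hper : Function.Periodic (fun θ => |Real.cos θ|) (2 * Real.pi) := by
    intro θ
    simp [Real.cos_add_two_pi]
  have h2 : ∫ θ in (0 : ℝ)..(2 * Real.pi), |Real.cos (θ - φ)| = 4 := by
    rw [intervalIntegral.integral_comp_sub_right (fun θ => |Real.cos θ|) φ]
    have := hper.intervalIntegral_add_eq (0 - φ) 0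
    rw [zero_add, integral_abs_cos] at this
    rw [show 2 * Real.pi - φ = 0 - φ + 2 * Real.pi by ring, this]
  rw [h2, dist_eq_norm]
  ring

/-! ### The hull with the origin -/

lemma isCompact_hull0 (K : ConvexBody Plane) :
    IsCompact (convexHull ℝ (insert 0 (K : Set Plane))) := by
  have : convexHull ℝ (insert 0 (K : Set Plane)) =
      (fun p : ℝ × Plane => p.1 • p.2) '' (Icc (0 : ℝ) 1 ×ˢ (K : Set Plane)) := by
    rw [convexHull_insert K.nonempty, K.convex.convexHull_eq]
    ext x
    rw [mem_convexJoin]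
    constructor
    · rintro ⟨a, ha, b, hb, hx⟩
      rw [Set.mem_singleton_iff] at ha
      subst ha
      rw [segment_eq_image'] at hx
      obtain ⟨t, ht, rfl⟩ := hx
      exact ⟨(t, b), ⟨ht, hb⟩, by simp⟩
    · rintro ⟨⟨t, b⟩, ⟨ht, hb⟩, rfl⟩
      refine ⟨0, rfl, b, hb, ?_⟩
      rw [segment_eq_image']
      exact ⟨t, ht, by simp⟩
  rw [this]
  exact (isCompact_Icc.prod K.isCompact).image (by fun_prop)

/-- `conv (K ∪ {0})`. -/
noncomputable def hull0 (K : ConvexBody Plane) : ConvexBody Plane where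
  carrier := convexHull ℝ (insert 0 (K : Set Plane))
  convex' := convex_convexHull ℝ _
  isCompact' := isCompact_hull0 K
  nonempty' := ⟨0, subset_convexHull ℝ _ (Set.mem_insert _ _)⟩

lemma zero_mem_hull0 (K : ConvexBody Plane) : (0 : Plane) ∈ hull0 K :=
  subset_convexHull ℝ _ (Set.mem_insert _ _)

lemma le_hull0 (K : ConvexBody Plane) : K ≤ hull0 K := fun _ hx =>
  subset_convexHull ℝ _ (Set.mem_insert_of_mem _ hx)

lemma hull0_mono {K L : ConvexBody Plane} (h : K ≤ L) : hull0 K ≤ hull0 L :=
  convexHull_mono (Set.insert_subset_insert h)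

lemma hull0_eq_self {K : ConvexBody Plane} (h : (0 : Plane) ∈ K) : hull0 K = K := by
  apply ConvexBody.ext
  show convexHull ℝ (insert 0 (K : Set Plane)) = K
  rw [Set.insert_eq_of_mem h, K.convex.convexHull_eq]

lemma supp_hull0 (K : ConvexBody Plane) (u : Plane) : supp (hull0 K) u = max (supp K u) 0 := by
  apply le_antisymm
  · apply supp_le
    have hconv : Convex ℝ {x : Plane | inner ℝ x u ≤ max (supp K u) 0} := by
      have : IsLinearMap ℝ (fun x : Plane => inner ℝ x u) :=
        ⟨fun x y => inner_add_left x y u, fun c x => by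
          simp [real_inner_smul_left]⟩
      exact convex_halfSpace_le this _
    have hsub : insert 0 (K : Set Plane) ⊆ {x : Plane | inner ℝ x u ≤ max (supp K u) 0} := by
      rintro x (rfl | hx)
      · simp
      · exact le_trans (le_supp hx u) (le_max_left _ _)
    intro x hx
    exact convexHull_min hsub hconv hx
  · apply max_le (supp_mono (le_hull0 K) u)
    have := le_supp (zero_mem_hull0 K) u
    simpa using this

/-- The increment `V1 (hull0 K) - V1 K` is nonnegative and decreasing in `K`. -/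
lemma V1_hull0_sub (K : ConvexBody Plane) :
    V1 (hull0 K) - V1 K = (1 / 2) * ∫ θ in (0 : ℝ)..(2 * Real.pi),
      max 0 (-supp K (unitVec θ)) := by
  unfold V1
  rw [← mul_sub, ← intervalIntegral.integral_sub ((continuous_h _).intervalIntegrable _ _)
    ((continuous_h _).intervalIntegrable _ _)]
  congr 1
  apply intervalIntegral.integral_congr
  intro θ _
  simp only [supp_hull0]
  rcases le_total 0 (supp K (unitVec θ)) with h | h
  · rw [max_eq_left h, max_eq_left (by linarith)]; ring
  · rw [max_eq_right h, max_eq_right (by linarith)]; ring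

lemma defect_anti {K L : ConvexBody Plane} (h : K ≤ L) :
    V1 (hull0 L) - V1 L ≤ V1 (hull0 K) - V1 K := by
  rw [V1_hull0_sub, V1_hull0_sub]
  have hK : Continuous fun θ => max 0 (-supp K (unitVec θ)) :=
    continuous_const.max (continuous_h K).neg
  have hL : Continuous fun θ => max 0 (-supp L (unitVec θ)) :=
    continuous_const.max (continuous_h L).neg
  have := intervalIntegral.integral_mono (μ := volume) (a := 0) (b := 2 * Real.pi)
    (by positivity) (hL.intervalIntegrable _ _) (hK.intervalIntegrable _ _)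
    (fun θ => max_le_max le_rfl (neg_le_neg (supp_mono h (unitVec θ))))
  linarith

/-! ### The symmetrization -/

/-- Minkowski symmetrization `(K + (-K)) / 2`. -/
noncomputable def mink (K : ConvexBody Plane) : ConvexBody Plane :=
  (1 / 2 : ℝ) • (K + (-1 : ℝ) • K)

lemma V1_mink (K : ConvexBody Plane) : V1 (mink K) = V1 K := by
  unfold mink
  rw [V1_smul _ (by norm_num), V1_add, V1_neg]
  ring

lemma mem_mink {K : ConvexBody Plane} {x : Plane} :
    x ∈ mink K ↔ ∃ a ∈ K, ∃ b ∈ K, x = (1 / 2 : ℝ) • (a - b) := by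
  constructor
  · intro hx
    obtain ⟨y, hy, rfl⟩ := Set.mem_smul_set.mp
      (show x ∈ (1 / 2 : ℝ) • ((K : Set Plane) + (-1 : ℝ) • (K : Set Plane)) from hx)
    obtain ⟨a, ha, c, hc, rfl⟩ := Set.mem_add.mp hy
    obtain ⟨b, hb, rfl⟩ := Set.mem_smul_set.mp hc
    refine ⟨a, ha, b, hb, ?_⟩
    congr 1
    simp [sub_eq_add_neg]
  · rintro ⟨a, ha, b, hb, rfl⟩
    show (1 / 2 : ℝ) • (a - b) ∈ (1 / 2 : ℝ) • ((K : Set Plane) + (-1 : ℝ) • (K : Set Plane))
    apply Set.smul_mem_smul_set
    rw [sub_eq_add_neg, ← neg_one_smul ℝ b]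
    exact Set.add_mem_add ha (Set.smul_mem_smul_set hb)

lemma mink_mono {K L : ConvexBody Plane} (h : K ≤ L) : mink K ≤ mink L := by
  intro x hx
  obtain ⟨a, ha, b, hb, rfl⟩ := mem_mink.mp hx
  exact mem_mink.mpr ⟨a, h ha, b, h hb, rfl⟩

lemma zero_mem_mink (K : ConvexBody Plane) : (0 : Plane) ∈ mink K := by
  obtain ⟨a, ha⟩ := K.nonempty
  exact mem_mink.mpr ⟨a, ha, a, ha, by simp⟩

lemma neg_mem_mink {K : ConvexBody Plane} {x : Plane} (hx : x ∈ mink K) : -x ∈ mink K := by
  obtain ⟨a, ha, b, hb, rfl⟩ := mem_mink.mp hx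
  refine mem_mink.mpr ⟨b, hb, a, ha, ?_⟩
  rw [← smul_neg, neg_sub]

lemma mink_eq_self {K : ConvexBody Plane} (h : OSymm K) : mink K = K := by
  have hneg : ∀ x ∈ K, -x ∈ K := by
    intro x hx
    have : -x ∈ -(K : Set Plane) := Set.neg_mem_neg.mpr hx
    rw [h] at this
    exact this
  apply ConvexBody.ext
  apply Set.Subset.antisymm
  · intro x hx
    obtain ⟨a, ha, b, hb, rfl⟩ := mem_mink.mp hx
    have := K.convex ha (hneg b hb) (show (0 : ℝ) ≤ 1 / 2 by norm_num)
      (show (0 : ℝ) ≤ 1 / 2 by norm_num) (by norm_num)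
    rw [← smul_add, ← sub_eq_add_neg] at this
    exact this
  · intro x hx
    refine mem_mink.mpr ⟨x, hx, -x, hneg x hx, ?_⟩
    rw [sub_neg_eq_add, ← two_smul ℝ x, smul_smul]
    norm_num

/-- The contraction factor `V1 K / V1 (conv (K ∪ {0}))`. -/
noncomputable def ratio (K : ConvexBody Plane) : ℝ := V1 K / V1 (hull0 K)

/-- The symmetrization. -/
noncomputable def D (K : ConvexBody Plane) : ConvexBody Plane := ratio K • mink (hull0 K)

lemma ratio_nonneg (K : ConvexBody Plane) : 0 ≤ ratio K :=
  div_nonneg (V1_nonneg _) (V1_nonneg _)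

lemma ratio_mono {K L : ConvexBody Plane} (h : K ≤ L) : ratio K ≤ ratio L := by
  unfold ratio
  rcases (V1_nonneg (hull0 K)).eq_or_lt with h0 | h0
  · rw [← h0, div_zero]
    exact ratio_nonneg L
  have hL : 0 < V1 (hull0 L) := lt_of_lt_of_le h0 (V1_mono (hull0_mono h))
  rw [div_le_div_iff₀ h0 hL]
  have h1 := V1_mono h
  have h2 := defect_anti h
  have h3 := V1_nonneg K
  have h4 := V1_mono (le_hull0 L)
  have h5 := V1_mono (le_hull0 K)
  nlinarith

lemma mem_D {K : ConvexBody Plane} {x : Plane} :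
    x ∈ D K ↔ ∃ y ∈ mink (hull0 K), ratio K • y = x :=
  Set.mem_smul_set

lemma D_symm (K : ConvexBody Plane) : OSymm (D K) := by
  have key : ∀ x ∈ D K, -x ∈ D K := by
    intro x hx
    obtain ⟨y, hy, rfl⟩ := mem_D.mp hx
    exact mem_D.mpr ⟨-y, neg_mem_mink hy, by rw [smul_neg]⟩
  unfold OSymm
  ext x
  rw [Set.mem_neg]
  constructor
  · intro hx
    have := key _ hx
    rwa [neg_neg] at this
  · intro hx
    exact key _ hx

lemma D_mono {K L : ConvexBody Plane} (h : K ≤ L) : D K ≤ D L := by
  intro x hx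
  obtain ⟨y, hy, rfl⟩ := mem_D.mp hx
  have hy' : y ∈ mink (hull0 L) := mink_mono (hull0_mono h) hy
  have hr := ratio_mono h
  have hr0 := ratio_nonneg K
  rcases (ratio_nonneg L).eq_or_lt with h0 | h0
  · have : ratio K = 0 := le_antisymm (by rw [h0]; exact hr) hr0
    rw [this, zero_smul]
    exact mem_D.mpr ⟨0, zero_mem_mink _, by rw [smul_zero]⟩
  · refine mem_D.mpr ⟨(ratio K / ratio L) • y, ?_, ?_⟩
    · have := (mink (hull0 L)).convex.smul_mem_of_zero_mem (zero_mem_mink _) hy'
        (t := ratio K / ratio L) ⟨div_nonneg hr0 h0.le, (div_le_one h0).mpr hr⟩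
      exact this
    · rw [smul_smul, mul_div_cancel₀ _ h0.ne']

lemma D_V1 (K : ConvexBody Plane) : V1 (D K) = V1 K := by
  unfold D
  rw [V1_smul _ (ratio_nonneg K), V1_mink]
  unfold ratio
  rcases (V1_nonneg (hull0 K)).eq_or_lt with h0 | h0
  · rw [← h0]
    have h1 := V1_mono (le_hull0 K)
    have h2 := V1_nonneg K
    rw [← h0] at h1
    simp only [mul_zero]
    linarith
  · rw [div_mul_cancel₀ _ h0.ne']

lemma D_invariant {K : ConvexBody Plane} (h : OSymm K) : D K = K := by
  have hneg : ∀ x ∈ K, -x ∈ K := by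
    intro x hx
    have : -x ∈ -(K : Set Plane) := Set.neg_mem_neg.mpr hx
    rw [h] at this
    exact this
  have h0 : (0 : Plane) ∈ K := K.zero_mem_of_symmetric hneg
  unfold D ratio
  rw [hull0_eq_self h0, mink_eq_self h]
  rcases (V1_nonneg K).eq_or_lt with hz | hz
  · rw [← hz, div_zero]
    have hK : ∀ x ∈ K, x = 0 := by
      intro x hx
      by_contra hx0
      have := V1_pos hx h0 hx0
      linarith
    apply ConvexBody.ext
    rw [ConvexBody.coe_smul, Set.zero_smul_set K.nonempty]
    apply Set.Subset.antisymm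
    · intro x hx
      rw [Set.mem_zero] at hx
      rw [hx]
      exact h0
    · intro x hx
      rw [Set.mem_zero]
      exact hK x hx
  · rw [div_self hz.ne', one_smul]

lemma D_seg {p q : Plane} (hpq : LinearIndependent ℝ ![p, q]) :
    ¬ ∃ a b : Plane, (D (seg p q) : Set Plane) = segment ℝ a b := by
  rintro ⟨a, b, hab⟩
  have hne : p ≠ q := by
    intro h
    rw [h] at hpq
    have := (LinearIndependent.pair_iff.mp hpq) 1 (-1) (by simp)
    exact one_ne_zero this.1
  have hp : p ∈ seg p q := left_mem_segment ℝ p q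
  have hq : q ∈ seg p q := right_mem_segment ℝ p q
  have hV : 0 < V1 (seg p q) := V1_pos hp hq hne
  have hV' : 0 < V1 (hull0 (seg p q)) := lt_of_lt_of_le hV (V1_mono (le_hull0 _))
  have hr : 0 < ratio (seg p q) := div_pos hV hV'
  set r := ratio (seg p q) with hrdef
  have m0 : (0 : Plane) ∈ D (seg p q) := mem_D.mpr ⟨0, zero_mem_mink _, by rw [smul_zero]⟩
  have mp : r • (1 / 2 : ℝ) • p ∈ D (seg p q) := by
    refine mem_D.mpr ⟨(1 / 2 : ℝ) • p, ?_, rfl⟩
    exact mem_mink.mpr ⟨p, le_hull0 _ hp, 0, zero_mem_hull0 _, by rw [sub_zero]⟩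
  have mq : r • (1 / 2 : ℝ) • q ∈ D (seg p q) := by
    refine mem_D.mpr ⟨(1 / 2 : ℝ) • q, ?_, rfl⟩
    exact mem_mink.mpr ⟨q, le_hull0 _ hq, 0, zero_mem_hull0 _, by rw [sub_zero]⟩
  have n0 : (0 : Plane) ∈ segment ℝ a b := hab ▸ m0
  have np : r • (1 / 2 : ℝ) • p ∈ segment ℝ a b := hab ▸ mp
  have nq : r • (1 / 2 : ℝ) • q ∈ segment ℝ a b := hab ▸ mq
  rw [segment_eq_image'] at n0 np nq
  obtain ⟨t0, _, e0⟩ := n0
  obtain ⟨t1, _, e1⟩ := np
  obtain ⟨t2, _, e2⟩ := nq
  simp only at e0 e1 e2
  -- `(t1 - t0) (b - a) = r/2 p`, `(t2 - t0) (b - a) = r/2 q`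
  have f1 : (t1 - t0) • (b - a) = (r / 2) • p := by
    have : (t1 - t0) • (b - a) = (a + t1 • (b - a)) - (a + t0 • (b - a)) := by
      rw [sub_smul]; abel
    rw [this, e0, e1, sub_zero, smul_smul]
    congr 1; ring
  have f2 : (t2 - t0) • (b - a) = (r / 2) • q := by
    have : (t2 - t0) • (b - a) = (a + t2 • (b - a)) - (a + t0 • (b - a)) := by
      rw [sub_smul]; abel
    rw [this, e0, e2, sub_zero, smul_smul]
    congr 1; ring
  have f3 : ((t2 - t0) * (r / 2)) • p + (-((t1 - t0) * (r / 2))) • q = 0 := by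
    rw [mul_smul, ← f1, neg_smul, mul_smul, ← f2, smul_smul, smul_smul, mul_comm]
    abel
  have := (LinearIndependent.pair_iff.mp hpq) _ _ f3
  have g1 : t2 - t0 = 0 := by
    rcases mul_eq_zero.mp this.1 with h | h
    · exact h
    · exfalso; linarith
  rw [g1, zero_smul] at f2
  have hq0 : q = 0 := by
    have := (smul_eq_zero.mp f2.symm)
    rcases this with h | h
    · exfalso; linarith
    · exact h
  have := hpq.ne_zero 1
  exact this (by simpa using hq0)

/-- **Negative answer to Q1.** There is a symmetrization of planar convex bodies (its values are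
origin-symmetric) which is monotonic, invariant on origin-symmetric bodies and preserves the first
intrinsic volume, but maps every segment not contained in a line through the origin to a
body that is not a segment (in particular it is not canonical). -/
theorem result :
    ∃ D : ConvexBody Plane → ConvexBody Plane,
      (∀ K, OSymm (D K)) ∧
      (∀ K L, K ≤ L → D K ≤ D L) ∧
      (∀ K, OSymm K → D K = K) ∧
      (∀ K, V1 (D K) = V1 K) ∧
      (∀ p q : Plane, LinearIndependent ℝ ![p, q] →
        ¬ ∃ a b : Plane, (D (seg p q) : Set Plane) = segment ℝ a b) ∧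
      ¬ (∀ p q : Plane, ∃ a b : Plane, (D (seg p q) : Set Plane) = segment ℝ a b) := by
  refine ⟨D, D_symm, fun K L h => D_mono h, fun K h => D_invariant h, D_V1,
    fun p q h => D_seg h, ?_⟩
  intro hcan
  have hli : LinearIndependent ℝ ![(!₂[(1 : ℝ), 0] : Plane), !₂[(0 : ℝ), 1]] := by
    rw [LinearIndependent.pair_iff]
    intro s t h
    have h0 := congrFun (congrArg (fun v : Plane => (v : Fin 2 → ℝ)) h) 0
    have h1 := congrFun (congrArg (fun v : Plane => (v : Fin 2 → ℝ)) h) 1
    simp at h0 h1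
    exact ⟨h0, h1⟩
  exact D_seg hli (hcan _ _)

end Pool.Agent.Results.MP_84aa88_gt.NonCanonical
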